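import Mathlib

/-!
# Binary codes: words over two non-commuting words (MP_0a2297_al)
-/

set_option autoImplicit false

namespace Pool.Agent.EmbFree

variable {X : Type}

/-- The image of the word `w` when the letter `c` is replaced by the word `α c`. -/
def W (α : Bool → List X) (w : List Bool) : List X := w.flatMap α

theorem W_nil (α : Bool → List X) : W α [] = [] := rfl

theorem W_cons (α : Bool → List X) (c : Bool) (w : List Bool) : W α (c :: w) = α c ++ W α w := rfl

theorem W_append (α : Bool → List X) (u v : List Bool) : W α (u ++ v) = W α u ++ W α v := by
  unfold W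
  exact List.flatMap_append

theorem W_single (α : Bool → List X) (c : Bool) : W α [c] = α c := by
  rw [W_cons, W_nil, List.append_nil]

theorem W_reverse (α : Bool → List X) (w : List Bool) :
    W (fun c => (α c).reverse) w.reverse = (W α w).reverse := by
  induction w with
  | nil => rfl
  | cons c w ih =>
    rw [List.reverse_cons, W_append, ih, W_single, W_cons, List.reverse_append]

/-- two words commute -/
def Com (A B : List X) : Prop := A ++ B = B ++ A

theorem com_comm {A B : List X} : Com A B ↔ Com B A := eq_comm

theorem com_reverse {A B : List X} (h : Com A.reverse B.reverse) : Com A B := by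
  unfold Com at h ⊢
  rw [← List.reverse_append, ← List.reverse_append] at h
  exact (List.reverse_injective h).symm

/-- the substitution `!c ↦ c (!c)` -/
def subst (c : Bool) (w : List Bool) : List Bool := w.flatMap fun e => if e = c then [c] else [c, !c]

theorem subst_head (c e : Bool) (w : List Bool) : ∃ w', subst c (e :: w) = c :: w' := by
  unfold subst
  rw [List.flatMap_cons]
  by_cases h : e = c
  · rw [if_pos h]
    exact ⟨_, rfl⟩
  · rw [if_neg h]
    exact ⟨_, rfl⟩

theorem W_subst {α β : Bool → List X} {c : Bool} (h1 : β c = α c) (h2 : α (!c) = α c ++ β (!c))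
    (w : List Bool) : W β (subst c w) = W α w := by
  induction w with
  | nil => rfl
  | cons e w ih =>
    have h3 : subst c (e :: w) = (if e = c then [c] else [c, !c]) ++ subst c w := rfl
    rw [h3, W_append, ih, W_cons]
    congr 1
    by_cases he : e = c
    · rw [if_pos he, W_single, h1, he]
    · have he' : e = !c := by
        cases e <;> cases c <;> simp_all
      rw [if_neg he, W_cons, W_single, h1, he', h2]

theorem comparable {A B Z : List X} (h1 : A <+: Z) (h2 : B <+: Z) (h : A.length ≤ B.length) :
    A <+: B := List.prefix_of_prefix_length_le h1 h2 h

/-- **Lemma.** If `α c` and `α (!c)` do not commute, a common initial segment of an image of a word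
which starts with `c` and an image of a word which starts with `!c` is shorter than
`|α c| + |α (!c)|`. -/
theorem code_lt (n : ℕ) : ∀ (α : Bool → List X) (c : Bool) (u v : List Bool) (Z : List X),
    (α c).length + (α (!c)).length ≤ n → ¬ Com (α c) (α (!c)) → Z <+: W α (c :: u) →
    Z <+: W α ((!c) :: v) → Z.length < (α c).length + (α (!c)).length := by
  induction n with
  | zero =>
    intro α c u v Z hn hcom _ _
    exfalso
    have h1 : α c = [] := List.length_eq_zero_iff.mp (by omega)
    exact hcom (by rw [h1]; simp [Com])
  | succ n ih =>
    -- it is enough to treat `|α c| ≤ |α (!c)|`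
    have key : ∀ (α : Bool → List X) (c : Bool) (u v : List Bool) (Z : List X),
        (α c).length + (α (!c)).length ≤ n + 1 → ¬ Com (α c) (α (!c)) → Z <+: W α (c :: u) →
        Z <+: W α ((!c) :: v) → (α c).length ≤ (α (!c)).length →
        Z.length < (α c).length + (α (!c)).length := by
      intro α c u v Z hn hcom hu hv hle
      by_contra hcon
      push Not at hcon
      rw [W_cons] at hu hv
      have h1 : α c <+: Z := comparable (List.prefix_append _ _) hu (by omega)
      have h2 : α (!c) <+: Z := comparable (List.prefix_append _ _) hv (by omega)
      obtain ⟨C, hC⟩ := comparable h1 h2 hle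
      have hA : α c ≠ [] := fun h => hcom (by rw [h]; simp [Com])
      have hA' : 1 ≤ (α c).length := Nat.one_le_iff_ne_zero.mpr fun h =>
        hA (List.length_eq_zero_iff.mp h)
      -- the new code
      set β : Bool → List X := fun e => if e = c then α c else C with hβ
      have hb1 : β c = α c := by rw [hβ]; simp
      have hb2 : β (!c) = C := by rw [hβ]; simp
      have hb3 : α (!c) = α c ++ β (!c) := by rw [hb2, hC]
      have hlen : (α (!c)).length = (α c).length + C.length := by
        rw [← hC, List.length_append]
      obtain ⟨Z', hZ'⟩ := h1
      have hu' : Z' <+: W α u := by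
        rw [← hZ'] at hu
        exact (List.prefix_append_right_inj _).mp hu
      have hv' : Z' <+: C ++ W α v := by
        rw [← hZ', ← hC, List.append_assoc] at hv
        exact (List.prefix_append_right_inj _).mp hv
      have hZl : Z.length = (α c).length + Z'.length := by rw [← hZ', List.length_append]
      cases u with
      | nil =>
        rw [W_nil, List.prefix_nil] at hu'
        rw [hu', List.length_nil] at hZl
        omega
      | cons e u =>
        obtain ⟨u'', hu''⟩ := subst_head c e u
        have h5 : W α (e :: u) = W β (c :: u'') := by
          rw [← hu'', W_subst hb1 hb3]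
        have h6 : C ++ W α v = W β ((!c) :: subst c v) := by
          rw [W_cons, W_subst hb1 hb3, hb2]
        rw [h5] at hu'
        rw [h6] at hv'
        have h7 : ¬ Com (β c) (β (!c)) := by
          intro h
          apply hcom
          unfold Com at h ⊢
          rw [hb1] at h
          rw [hb3, List.append_assoc, ← h]
        have h8 := ih β c u'' (subst c v) Z' (by rw [hb1, hb2]; omega) h7 hu' hv'
        rw [hb1, hb2] at h8
        omega
    intro α c u v Z hn hcom hu hv
    rcases le_total (α c).length (α (!c)).length with h | h
    · exact key α c u v Z hn hcom hu hv h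
    · have h1 := key α (!c) v u Z (by rw [Bool.not_not]; omega)
        (by rw [Bool.not_not]; exact fun h => hcom (com_comm.mp h)) hv
        (by rw [Bool.not_not]; exact hu) (by rw [Bool.not_not]; exact h)
      rw [Bool.not_not] at h1
      omega

theorem code_left {α : Bool → List X} {c : Bool} {u v : List Bool} {Z : List X}
    (hcom : ¬ Com (α c) (α (!c))) (hu : Z <+: W α (c :: u)) (hv : Z <+: W α ((!c) :: v)) :
    Z.length < (α c).length + (α (!c)).length :=
  code_lt _ α c u v Z le_rfl hcom hu hv

theorem code_right {α : Bool → List X} {c : Bool} {u v : List Bool} {Z : List X}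
    (hcom : ¬ Com (α c) (α (!c))) (hu : Z <:+ W α (u ++ [c])) (hv : Z <:+ W α (v ++ [!c])) :
    Z.length < (α c).length + (α (!c)).length := by
  have h1 := code_left (α := fun c => (α c).reverse) (c := c) (u := u.reverse) (v := v.reverse)
    (Z := Z.reverse) (fun h => hcom (com_reverse h)) ?_ ?_
  · simpa using h1
  · have h2 : c :: u.reverse = (u ++ [c]).reverse := by simp
    rw [h2, W_reverse]
    exact List.reverse_prefix.mpr hu
  · have h2 : (!c) :: v.reverse = (v ++ [!c]).reverse := by simp
    rw [h2, W_reverse]
    exact List.reverse_prefix.mpr hv

end Pool.Agent.EmbFree
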