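import Mathlib

/-!
# Submonoids of the free group of rank two which contain a basis (MP_0a2297_al): definitions

The letters are `true` and `false`; `!c` is the letter other than `c`. A positive word is a list of letters.
-/

set_option autoImplicit false

namespace Pool.Agent.EmbFree

/-- The element of the free group given by a positive word. -/
def pos (w : List Bool) : FreeGroup Bool := (w.map FreeGroup.of).prod

/-- Three positive words `p`, `h`, `q`, which give the element `p⁻¹ h q⁻¹` of the free group. -/
structure Gen where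
  /-- the word `p` -/
  p : List Bool
  /-- the word `h` -/
  h : List Bool
  /-- the word `q` -/
  q : List Bool

/-- The element `p⁻¹ h q⁻¹` of the free group. -/
def Gen.val (g : Gen) : FreeGroup Bool := (pos g.p)⁻¹ * pos g.h * (pos g.q)⁻¹

/-- The word `h` is not empty and `p⁻¹ h q⁻¹` is reduced as written: `p` and `h` do not start with the same letter,
`h` and `q` do not end with the same letter. -/
def Gen.Red (g : Gen) : Prop :=
  g.h ≠ [] ∧ (∀ c, g.p.head? = some c → g.h.head? ≠ some c) ∧
    ∀ c, g.q.getLast? = some c → g.h.getLast? ≠ some c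

/-- The mirror image. -/
def Gen.mirror (g : Gen) : Gen := ⟨g.q.reverse, g.h.reverse, g.p.reverse⟩

/-- The submonoid of the free group generated by the two letters and the elements `p⁻¹ h q⁻¹` of the list `G`. -/
def Mon (G : List Gen) : Submonoid (FreeGroup Bool) :=
  Submonoid.closure ({x | ∃ c, x = FreeGroup.of c} ∪ {x | ∃ g ∈ G, x = g.val})

/-- The monoid `M` embeds in a free monoid. -/
def Embeds (M : Submonoid (FreeGroup Bool)) : Prop :=
  ∃ (B : Type) (f : M →* FreeMonoid B), Function.Injective f

/-- All the words `p` and `q` are powers of one and the same letter. -/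
def Crit1 (G : List Gen) : Prop := ∃ c : Bool, ∀ g ∈ G, (∀ d ∈ g.p, d = c) ∧ ∀ d ∈ g.q, d = c

/-- All the words `q` are empty; every `p` is a power of the letter `c` or is the letter `!c`; if `p⁻¹ h` with `p = c ^ s`,
`s ≥ 1`, and `(!c)⁻¹ c ^ m` are in `G`, then `s ≤ m`, and `s < m` if `h = !c`. -/
def Crit2 (G : List Gen) : Prop := ∃ c : Bool,
  (∀ g ∈ G, g.q = [] ∧ ((∀ d ∈ g.p, d = c) ∨ g.p = [!c])) ∧
    ∀ g ∈ G, ∀ g' ∈ G, ∀ m : ℕ, g.p ≠ [] → (∀ d ∈ g.p, d = c) → g'.p = [!c] →
      g'.h = List.replicate m c → g.p.length ≤ m ∧ (g.h = [!c] → g.p.length < m)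

end Pool.Agent.EmbFree
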