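import Pool.Agent.Lib_MP_0a2297_al.Defs
import Pool.Agent.Lib_MP_0a2297_al.Code

/-!
# The criterion is necessary (MP_0a2297_al)
-/

set_option autoImplicit false

namespace Pool.Agent.EmbFree

variable {X : Type}

theorem bool_of_ne {a c : Bool} (h : a ≠ c) : a = !c := by
  revert h
  cases a <;> cases c <;> decide

theorem bool_of_ne' {a c : Bool} (h : a ≠ !c) : a = c := by
  revert h
  cases a <;> cases c <;> decide

/-- the generator `g` has a positive image -/
def HasG (α : Bool → List X) (g : Gen) : Prop := ∃ γ, W α g.p ++ γ ++ W α g.q = W α g.h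

theorem mem_lengthW {α : Bool → List X} {c : Bool} {w : List Bool} (h : c ∈ w) :
    (α c).length ≤ (W α w).length := by
  induction w with
  | nil => exact absurd h (List.not_mem_nil)
  | cons e w ih =>
    rw [W_cons, List.length_append]
    rcases List.mem_cons.mp h with h1 | h1
    · rw [h1]
      omega
    · have := ih h1
      omega

theorem mem_lengthW2 {α : Bool → List X} {c : Bool} {w : List Bool} (h : c ∈ w) (h' : (!c) ∈ w) :
    (α c).length + (α (!c)).length ≤ (W α w).length := by
  induction w with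
  | nil => exact absurd h (List.not_mem_nil)
  | cons e w ih =>
    rw [W_cons, List.length_append]
    rcases List.mem_cons.mp h with h1 | h1
    · rcases List.mem_cons.mp h' with h2 | h2
      · rw [← h1] at h2
        cases c <;> simp at h2
      · have := mem_lengthW (α := α) h2
        rw [h1] at this ⊢
        omega
    · rcases List.mem_cons.mp h' with h2 | h2
      · have := mem_lengthW (α := α) h1
        rw [h2]
        omega
      · have := ih h1 h2
        omega

theorem HasG.pre {α : Bool → List X} {g : Gen} (h : HasG α g) : W α g.p <+: W α g.h := by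
  obtain ⟨γ, h⟩ := h
  rw [← h, List.append_assoc]
  exact List.prefix_append _ _

theorem HasG.suf {α : Bool → List X} {g : Gen} (h : HasG α g) : W α g.q <:+ W α g.h := by
  obtain ⟨γ, h⟩ := h
  rw [← h]
  exact List.suffix_append _ _

theorem HasG.mirror {α : Bool → List X} {g : Gen} (h : HasG α g) :
    HasG (fun c => (α c).reverse) g.mirror := by
  obtain ⟨γ, h⟩ := h
  refine ⟨γ.reverse, ?_⟩
  unfold Gen.mirror
  dsimp only
  rw [W_reverse, W_reverse, W_reverse, ← h]
  simp

theorem Gen.Red.mirror {g : Gen} (h : g.Red) : g.mirror.Red := by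
  obtain ⟨h1, h2, h3⟩ := h
  refine ⟨?_, ?_, ?_⟩
  · unfold Gen.mirror
    simpa using h1
  · unfold Gen.mirror
    simpa using h3
  · unfold Gen.mirror
    simpa using h2

theorem Gen.mirror_mirror (g : Gen) : g.mirror.mirror = g := by
  unfold Gen.mirror
  simp

theorem com_mirror {α : Bool → List X} (hcom : ∀ c, ¬ Com (α c) (α (!c))) :
    ∀ c, ¬ Com ((fun c => (α c).reverse) c) ((fun c => (α c).reverse) (!c)) :=
  fun c h => hcom c (com_reverse h)

theorem head_of {c : Bool} {h : List Bool} (h1 : h ≠ []) (h2 : h.head? ≠ some c) :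
    ∃ h', h = (!c) :: h' := by
  cases h with
  | nil => exact absurd rfl h1
  | cons e h' =>
    refine ⟨h', ?_⟩
    have h3 : e ≠ c := fun h4 => h2 (by rw [h4]; rfl)
    have h4 : e = !c := bool_of_ne h3
    rw [h4]

theorem pure_p {α : Bool → List X} (hcom : ∀ c, ¬ Com (α c) (α (!c))) {g : Gen} (hr : g.Red)
    (hg : HasG α g) {c : Bool} (hc : c ∈ g.p) : ∀ d ∈ g.p, d = c := by
  have key : ∀ c p', g.p = c :: p' → (!c) ∉ g.p := by
    intro c p' hp hmem
    obtain ⟨h', hh⟩ := head_of hr.1 (hr.2.1 c (by rw [hp]; rfl))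
    have h1 := hg.pre
    have h2 : W α g.p <+: W α (c :: p') := by rw [hp]
    have h3 : W α g.p <+: W α ((!c) :: h') := by rw [← hh]; exact h1
    have h4 := code_left (hcom c) h2 h3
    have h5 := mem_lengthW2 (α := α) (c := c) (by rw [hp]; exact List.mem_cons_self) hmem
    omega
  cases hp : g.p with
  | nil => rw [hp] at hc; exact absurd hc List.not_mem_nil
  | cons e p' =>
    have h1 := key e p' hp
    have h2 : ∀ d ∈ g.p, d = e := by
      intro d hd
      by_contra hne
      have h3 : d = !e := bool_of_ne hne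
      rw [h3] at hd
      exact h1 hd
    rw [← hp]
    intro d hd
    rw [h2 d hd, h2 c hc]

theorem pure_q {α : Bool → List X} (hcom : ∀ c, ¬ Com (α c) (α (!c))) {g : Gen} (hr : g.Red)
    (hg : HasG α g) {c : Bool} (hc : c ∈ g.q) : ∀ d ∈ g.q, d = c := by
  have h1 := pure_p (com_mirror hcom) hr.mirror hg.mirror (c := c) (by
    unfold Gen.mirror
    simpa using hc)
  unfold Gen.mirror at h1
  simpa using h1

/-- `c ∈ p` and `!c ∈ q'` are impossible, first case -/
theorem mixed1 {α : Bool → List X} (hcom : ∀ c, ¬ Com (α c) (α (!c))) {g g' : Gen} (hr : g.Red)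
    (hg : HasG α g) (hr' : g'.Red) (hg' : HasG α g') {c : Bool} (hc : c ∈ g.p)
    (hc' : (!c) ∈ g'.q) (hle : (α c).length ≤ (α (!c)).length) : False := by
  -- `α c` is an initial segment of `α (!c) ⋯`
  have h1 : ∃ p', g.p = c :: p' := by
    have h2 := pure_p hcom hr hg hc
    cases hp : g.p with
    | nil => rw [hp] at hc; exact absurd hc List.not_mem_nil
    | cons e p' => exact ⟨p', by rw [h2 e (by rw [hp]; exact List.mem_cons_self)]⟩
  obtain ⟨p', hp⟩ := h1
  obtain ⟨h', hh⟩ := head_of hr.1 (hr.2.1 c (by rw [hp]; rfl))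
  have h3 : α c <+: W α g.h := by
    refine List.IsPrefix.trans ?_ hg.pre
    rw [hp, W_cons]
    exact List.prefix_append _ _
  have h4 : α (!c) <+: W α g.h := by
    rw [hh, W_cons]
    exact List.prefix_append _ _
  obtain ⟨C, hC⟩ := comparable h3 h4 hle
  -- `α (!c)` is a final segment of `⋯ α c`
  have h5 := pure_q hcom hr' hg' hc'
  obtain ⟨q', hq⟩ : ∃ q', g'.q = q' ++ [!c] := by
    have h6 : g'.q ≠ [] := fun h => by rw [h] at hc'; exact absurd hc' List.not_mem_nil
    refine ⟨g'.q.dropLast, ?_⟩
    have h7 := List.dropLast_append_getLast h6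
    rw [h5 _ (List.getLast_mem h6)] at h7
    exact h7.symm
  obtain ⟨h2, hh2⟩ : ∃ h2, g'.h = h2 ++ [c] := by
    have h6 : g'.h.getLast? ≠ some (!c) := hr'.2.2 (!c) (by rw [hq]; simp)
    refine ⟨g'.h.dropLast, ?_⟩
    have h7 := List.dropLast_append_getLast hr'.1
    have h8 : g'.h.getLast hr'.1 ≠ !c := fun h9 => h6 (by
      rw [List.getLast?_eq_some_getLast hr'.1, h9])
    have h9 : g'.h.getLast hr'.1 = c := bool_of_ne' h8
    rw [h9] at h7
    exact h7.symm
  have h8 : α (!c) <:+ W α (h2 ++ [c]) := by
    rw [← hh2]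
    refine List.IsSuffix.trans ?_ hg'.suf
    rw [hq, W_append, W_single]
    exact List.suffix_append _ _
  -- the new code
  set β : Bool → List X := fun e => if e = c then α c else C with hβ
  have hb1 : β c = α c := by rw [hβ]; simp
  have hb2 : β (!c) = C := by rw [hβ]; simp
  have hb3 : α (!c) = α c ++ β (!c) := by rw [hb2, hC]
  have h9 : α (!c) <:+ W β ([c] ++ [!c]) := by
    rw [W_append, W_single, W_single, hb1, ← hb3]
  have h10 : α (!c) <:+ W β (subst c h2 ++ [c]) := by
    rw [W_append, W_subst hb1 hb3, W_single, hb1, ← W_single α c, ← W_append]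
    exact h8
  have h11 : ¬ Com (β c) (β (!c)) := by
    intro h
    apply hcom c
    unfold Com at h ⊢
    rw [hb1] at h
    rw [hb3, List.append_assoc, ← h]
  have h12 := code_right h11 h10 h9
  have h13 : (α (!c)).length = (α c).length + C.length := by rw [← hC, List.length_append]
  rw [hb1, hb2] at h12
  omega

theorem mixed {α : Bool → List X} (hcom : ∀ c, ¬ Com (α c) (α (!c))) {g g' : Gen} (hr : g.Red)
    (hg : HasG α g) (hr' : g'.Red) (hg' : HasG α g') {c : Bool} (hc : c ∈ g.p)
    (hc' : (!c) ∈ g'.q) : False := by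
  rcases le_total (α c).length (α (!c)).length with h | h
  · exact mixed1 hcom hr hg hr' hg' hc hc' h
  · refine mixed1 (com_mirror hcom) hr'.mirror hg'.mirror hr.mirror hg.mirror (c := !c) ?_ ?_ ?_
    · unfold Gen.mirror
      simpa using hc'
    · unfold Gen.mirror
      simpa using hc
    · simpa using h

theorem eq_replicate_of {c : Bool} {w : List Bool} (h : ∀ d ∈ w, d = c) :
    w = List.replicate w.length c := List.eq_replicate_of_mem h

theorem W_replicate_add (α : Bool → List X) (c : Bool) (m n : ℕ) :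
    W α (List.replicate (m + n) c) = W α (List.replicate m c) ++ W α (List.replicate n c) := by
  rw [← W_append, List.replicate_append_replicate]

theorem pair {α : Bool → List X} (hcom : ∀ c, ¬ Com (α c) (α (!c))) {g g' : Gen} {c : Bool}
    (hr : g.Red) (hg : HasG α g) (hg' : HasG α g') (hq : g.q = []) (hq' : g'.q = [])
    (hlt : (α c).length < (α (!c)).length) {m : ℕ} (hne : g.p ≠ []) (hp : ∀ d ∈ g.p, d = c)
    (hp' : g'.p = [!c]) (hh' : g'.h = List.replicate m c) :
    g.p.length ≤ m ∧ (g.h = [!c] → g.p.length < m) := by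
  obtain ⟨p', hpc⟩ : ∃ p', g.p = c :: p' := by
    cases hp0 : g.p with
    | nil => exact absurd hp0 hne
    | cons e p' => exact ⟨p', by rw [hp e (by rw [hp0]; exact List.mem_cons_self)]⟩
  obtain ⟨h', hh⟩ := head_of hr.1 (hr.2.1 c (by rw [hpc]; rfl))
  have hA : α c ≠ [] := fun h => hcom c (by rw [h]; simp [Com])
  have hAB : α c <+: α (!c) := by
    have h3 : α c <+: W α g.h := by
      refine List.IsPrefix.trans ?_ hg.pre
      rw [hpc, W_cons]
      exact List.prefix_append _ _
    have h4 : α (!c) <+: W α g.h := by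
      rw [hh, W_cons]
      exact List.prefix_append _ _
    exact comparable h3 h4 hlt.le
  obtain ⟨γ, e1⟩ := hg
  obtain ⟨γ', e2⟩ := hg'
  rw [hq, W_nil, List.append_nil, hh, W_cons, eq_replicate_of hp] at e1
  rw [hq', W_nil, List.append_nil, hp', W_single, hh'] at e2
  have e3 : ∀ k, g.p.length = m + k → γ' ++ (W α (List.replicate k c) ++ γ) = W α h' := by
    intro k hk
    rw [hk, W_replicate_add, ← e2] at e1
    simp only [List.append_assoc] at e1
    exact List.append_cancel_left e1
  constructor
  · by_contra hcon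
    push Not at hcon
    obtain ⟨k, hk⟩ : ∃ k, g.p.length = m + (1 + k) := ⟨g.p.length - m - 1, by omega⟩
    have e4 := e3 _ hk
    rw [W_replicate_add, List.replicate_one, W_single] at e4
    simp only [List.append_assoc] at e4
    cases h' with
    | nil =>
      rw [W_nil] at e4
      have h6 : α c = [] := by
        have := List.append_eq_nil_iff.mp e4
        exact (List.append_eq_nil_iff.mp this.2).1
      exact hA h6
    | cons e h'' =>
      have h6 : α c <+: W α (e :: h'') := by
        rw [W_cons]
        by_cases he : e = c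
        · rw [he]
          exact List.prefix_append _ _
        · have he' : e = !c := bool_of_ne he
          rw [he']
          exact hAB.trans (List.prefix_append _ _)
      have h7 : γ' ++ α c <+: W α (e :: h'') := by
        rw [← e4, ← List.append_assoc]
        exact List.prefix_append _ _
      obtain ⟨ξ, hξ⟩ := comparable h6 h7 (by rw [List.length_append]; omega)
      -- `B A ξ = B γ' A = A ^ (m + 1) = A B γ'`
      have h8 : (α (!c) ++ α c) ++ ξ = (α c ++ α (!c)) ++ γ' := by
        rw [List.append_assoc, hξ, ← List.append_assoc, e2, List.append_assoc, e2]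
        have h9 := W_replicate_add α c m 1
        have h10 := W_replicate_add α c 1 m
        rw [List.replicate_one, W_single] at h9 h10
        rw [← h9, ← h10, add_comm]
      have h9 := List.append_inj_left h8 (by
        rw [List.length_append, List.length_append]
        omega)
      exact hcom c h9.symm
  · intro hh1
    rw [hh, List.cons.injEq] at hh1
    have hh2 := hh1.2
    by_contra hcon
    push Not at hcon
    obtain ⟨k, hk⟩ : ∃ k, g.p.length = m + k := ⟨g.p.length - m, by omega⟩
    have e4 := e3 _ hk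
    rw [hh2, W_nil] at e4
    have h6 := (List.append_eq_nil_iff.mp e4).1
    rw [h6, List.append_nil] at e2
    -- `B = A ^ m`
    apply hcom c
    unfold Com
    have h9 := W_replicate_add α c m 1
    have h10 := W_replicate_add α c 1 m
    rw [List.replicate_one, W_single] at h9 h10
    rw [e2, ← h9, ← h10, add_comm]

theorem nec_q {α : Bool → List X} (hcom : ∀ c, ¬ Com (α c) (α (!c))) {G : List Gen}
    (hG : ∀ g ∈ G, g.Red) (hγ : ∀ g ∈ G, HasG α g) (hq : ∀ g ∈ G, g.q = []) :
    Crit1 G ∨ Crit2 G := by
  by_cases h1 : ∃ c, ∀ g ∈ G, ∀ d ∈ g.p, d = c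
  · obtain ⟨c, hc⟩ := h1
    refine Or.inl ⟨c, fun g hg => ⟨hc g hg, fun d hd => ?_⟩⟩
    rw [hq g hg] at hd
    exact absurd hd List.not_mem_nil
  right
  have hex : ∀ c, ∃ g ∈ G, c ∈ g.p := by
    intro c
    by_contra hcon
    push Not at hcon
    exact h1 ⟨!c, fun g hg d hd => by
      have h2 : d ≠ c := fun h => hcon g hg (h ▸ hd)
      exact bool_of_ne h2⟩
  have hcons : ∀ {c : Bool} {g : Gen}, g ∈ G → c ∈ g.p → ∃ p', g.p = c :: p' := by
    intro c g hg hc
    have h2 := pure_p hcom (hG g hg) (hγ g hg) hc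
    cases hp : g.p with
    | nil => rw [hp] at hc; exact absurd hc List.not_mem_nil
    | cons e p' => exact ⟨p', by rw [h2 e (by rw [hp]; exact List.mem_cons_self)]⟩
  -- the lengths are different
  have hne : (α true).length ≠ (α false).length := by
    intro heq
    obtain ⟨g, hg, hc⟩ := hex true
    obtain ⟨p', hp⟩ := hcons hg hc
    obtain ⟨h', hh⟩ := head_of (hG g hg).1 ((hG g hg).2.1 true (by rw [hp]; rfl))
    have h3 : α true <+: W α g.h := by
      refine List.IsPrefix.trans ?_ (hγ g hg).pre
      rw [hp, W_cons]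
      exact List.prefix_append _ _
    have h4 : α (!true) <+: W α g.h := by
      rw [hh, W_cons]
      exact List.prefix_append _ _
    have h5 : α true <+: α (!true) := comparable h3 h4 (by simpa using heq.le)
    have h6 : α true = α (!true) := h5.eq_of_length (by simpa using heq)
    exact hcom true (by rw [← h6]; rfl)
  obtain ⟨c, hlt⟩ : ∃ c, (α c).length < (α (!c)).length := by
    rcases lt_or_gt_of_ne hne with h | h
    · exact ⟨true, h⟩
    · exact ⟨false, h⟩
  refine ⟨c, fun g hg => ⟨hq g hg, ?_⟩, fun g hg g' hg' m hne' hp hp' hh' =>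
    pair hcom (hG g hg) (hγ g hg) (hγ g' hg') (hq g hg) (hq g' hg') hlt hne' hp hp' hh'⟩
  by_cases hmem : (!c) ∈ g.p
  · right
    obtain ⟨p', hp⟩ := hcons hg hmem
    cases p' with
    | nil => exact hp
    | cons e p'' =>
      exfalso
      have h2 := pure_p hcom (hG g hg) (hγ g hg) hmem
      have h3 : e = !c := h2 e (by rw [hp]; simp)
      obtain ⟨h', hh⟩ := head_of (hG g hg).1 ((hG g hg).2.1 (!c) (by rw [hp]; rfl))
      rw [Bool.not_not] at hh
      have h4 : W α g.p <+: W α (c :: h') := by
        rw [← hh]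
        exact (hγ g hg).pre
      have h5 : W α g.p <+: W α ((!c) :: e :: p'') := by rw [hp]
      have h6 := code_left (hcom c) h4 h5
      rw [hp, W_cons, W_cons, h3] at h6
      simp only [List.length_append] at h6
      omega
  · left
    intro d hd
    have h2 : d ≠ !c := fun h => hmem (h ▸ hd)
    exact bool_of_ne' h2

theorem crit1_mirror {G : List Gen} (h : Crit1 (G.map Gen.mirror)) : Crit1 G := by
  obtain ⟨c, hc⟩ := h
  refine ⟨c, fun g hg => ?_⟩
  have h1 := hc g.mirror (List.mem_map_of_mem hg)
  unfold Gen.mirror at h1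
  simp only [List.mem_reverse] at h1
  exact ⟨h1.2, h1.1⟩

/-- The criterion is necessary. -/
theorem nec {α : Bool → List X} (hcom : ∀ c, ¬ Com (α c) (α (!c))) {G : List Gen}
    (hG : ∀ g ∈ G, g.Red) (hγ : ∀ g ∈ G, HasG α g) :
    Crit1 G ∨ Crit2 G ∨ Crit2 (G.map Gen.mirror) := by
  by_cases hq : ∀ g ∈ G, g.q = []
  · rcases nec_q hcom hG hγ hq with h | h
    · exact Or.inl h
    · exact Or.inr (Or.inl h)
  by_cases hp : ∀ g ∈ G, g.p = []
  · have h1 := nec_q (com_mirror hcom) (G := G.map Gen.mirror) ?_ ?_ ?_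
    · rcases h1 with h | h
      · exact Or.inl (crit1_mirror h)
      · exact Or.inr (Or.inr h)
    · intro g hg
      obtain ⟨g0, hg0, rfl⟩ := List.mem_map.mp hg
      exact (hG g0 hg0).mirror
    · intro g hg
      obtain ⟨g0, hg0, rfl⟩ := List.mem_map.mp hg
      exact (hγ g0 hg0).mirror
    · intro g hg
      obtain ⟨g0, hg0, rfl⟩ := List.mem_map.mp hg
      unfold Gen.mirror
      simpa using hp g0 hg0
  · left
    push Not at hq hp
    obtain ⟨g1, hg1, hq1⟩ := hq
    obtain ⟨g2, hg2, hp2⟩ := hp
    obtain ⟨c, hc⟩ := List.exists_mem_of_ne_nil _ hp2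
    -- all letters of the `q` are `c`
    have h1 : ∀ g ∈ G, ∀ d ∈ g.q, d = c := by
      intro g hg d hd
      by_contra hne
      have h2 : d = !c := bool_of_ne hne
      exact mixed hcom (hG g2 hg2) (hγ g2 hg2) (hG g hg) (hγ g hg) hc (h2 ▸ hd)
    refine ⟨c, fun g hg => ⟨fun d hd => ?_, h1 g hg⟩⟩
    by_contra hne
    have h2 : c = !d := bool_of_ne (Ne.symm hne)
    obtain ⟨e, he⟩ := List.exists_mem_of_ne_nil _ hq1
    have h3 : e = !d := by rw [h1 g1 hg1 e he, h2]
    exact mixed hcom (hG g hg) (hγ g hg) (hG g1 hg1) (hγ g1 hg1) hd (h3 ▸ he)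

end Pool.Agent.EmbFree
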