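import Pool.Agent.Lib_MP_0a2297_al.Nec

/-!
# The criterion is sufficient (MP_0a2297_al)
-/

set_option autoImplicit false

namespace Pool.Agent.EmbFree

/-- the canonical map of the free monoid into the free group -/
def posH : FreeMonoid Bool →* FreeGroup Bool := FreeMonoid.lift FreeGroup.of

theorem posH_ofList (w : List Bool) : posH (FreeMonoid.ofList w) = pos w := by
  unfold posH pos
  rw [FreeMonoid.lift_apply]
  rfl

theorem pos_nil : pos [] = 1 := rfl

theorem pos_cons (c : Bool) (w : List Bool) : pos (c :: w) = FreeGroup.of c * pos w := by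
  unfold pos
  rw [List.map_cons, List.prod_cons]

theorem pos_append (u v : List Bool) : pos (u ++ v) = pos u * pos v := by
  unfold pos
  rw [List.map_append, List.prod_append]

theorem pos_eq_mk (w : List Bool) : pos w = FreeGroup.mk (w.map fun b => (b, true)) := by
  induction w with
  | nil => rfl
  | cons c w ih =>
    rw [pos_cons, ih, List.map_cons]
    show FreeGroup.mk [(c, true)] * _ = _
    rw [FreeGroup.mul_mk]
    rfl

theorem isReduced_pos (w : List Bool) : FreeGroup.IsReduced (w.map fun b => (b, true)) := by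
  induction w with
  | nil => exact FreeGroup.IsReduced.nil
  | cons c w ih =>
    cases w with
    | nil => exact FreeGroup.IsReduced.singleton
    | cons d w =>
      rw [List.map_cons, List.map_cons, FreeGroup.isReduced_cons_cons]
      exact ⟨fun _ => rfl, ih⟩

theorem pos_injective : Function.Injective pos := by
  intro u v h
  rw [pos_eq_mk, pos_eq_mk] at h
  have h1 := congrArg FreeGroup.toWord h
  rw [FreeGroup.toWord_mk, FreeGroup.toWord_mk, (isReduced_pos u).reduce_eq,
    (isReduced_pos v).reduce_eq] at h1
  exact List.map_injective_iff.mpr (fun a b hab => congrArg Prod.fst hab) h1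

theorem posH_injective : Function.Injective posH := by
  intro u v h
  have h1 := posH_ofList (FreeMonoid.toList u)
  have h2 := posH_ofList (FreeMonoid.toList v)
  rw [FreeMonoid.ofList_toList] at h1 h2
  rw [h1, h2] at h
  exact FreeMonoid.toList.injective (pos_injective h)

/-- the endomorphism of the free group given by two positive words -/
def Phi (α : Bool → List Bool) : FreeGroup Bool →* FreeGroup Bool :=
  FreeGroup.lift fun c => pos (α c)

theorem Phi_of (α : Bool → List Bool) (c : Bool) : Phi α (FreeGroup.of c) = pos (α c) :=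
  FreeGroup.lift_apply_of

theorem Phi_pos (α : Bool → List Bool) (w : List Bool) : Phi α (pos w) = pos (W α w) := by
  induction w with
  | nil => rw [pos_nil, map_one, W_nil, pos_nil]
  | cons c w ih => rw [pos_cons, map_mul, Phi_of, ih, W_cons, pos_append]

/-- If `Φ` is injective and all generators have positive images the monoid embeds. -/
theorem embeds_of {α : Bool → List Bool} (hinj : Function.Injective (Phi α)) {G : List Gen}
    (hγ : ∀ g ∈ G, HasG α g) : Embeds (Mon G) := by
  have hmem : ∀ x : Mon G, ((Phi α).comp (Mon G).subtype) x ∈ MonoidHom.mrange posH := by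
    rintro ⟨x, hx⟩
    have hle : Mon G ≤ (MonoidHom.mrange posH).comap (Phi α) := by
      unfold Mon
      rw [Submonoid.closure_le]
      rintro y (⟨c, rfl⟩ | ⟨g, hg, rfl⟩)
      · show Phi α (FreeGroup.of c) ∈ MonoidHom.mrange posH
        rw [Phi_of, ← posH_ofList]
        exact ⟨_, rfl⟩
      · show Phi α g.val ∈ MonoidHom.mrange posH
        obtain ⟨γ, h⟩ := hγ g hg
        have h1 : Phi α g.val = pos γ := by
          unfold Gen.val
          rw [map_mul, map_mul, map_inv, map_inv, Phi_pos, Phi_pos, Phi_pos, ← h, pos_append,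
            pos_append]
          group
        rw [h1, ← posH_ofList]
        exact ⟨_, rfl⟩
    exact hle hx
  let e : FreeMonoid Bool ≃* MonoidHom.mrange posH :=
    MulEquiv.ofBijective posH.mrangeRestrict
      ⟨fun u v h => posH_injective (congrArg Subtype.val h), MonoidHom.mrangeRestrict_surjective _⟩
  refine ⟨Bool, e.symm.toMonoidHom.comp
    (MonoidHom.codRestrict ((Phi α).comp (Mon G).subtype) (MonoidHom.mrange posH) hmem), ?_⟩
  intro x y h
  have h1 := e.symm.injective h
  have h2 : Phi α x.1 = Phi α y.1 := congrArg Subtype.val h1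
  exact Subtype.ext (hinj h2)

theorem inj_of_left {α : Bool → List Bool} (Ψ : FreeGroup Bool →* FreeGroup Bool) (c : Bool)
    (h1 : Ψ (pos (α c)) = FreeGroup.of c) (h2 : Ψ (pos (α (!c))) = FreeGroup.of (!c)) :
    Function.Injective (Phi α) := by
  have h : Ψ.comp (Phi α) = MonoidHom.id _ := by
    apply FreeGroup.ext_hom
    intro d
    show Ψ (Phi α (FreeGroup.of d)) = FreeGroup.of d
    rw [Phi_of]
    by_cases hd : d = c
    · rw [hd, h1]
    · rw [bool_of_ne hd, h2]
  intro x y hxy
  have h3 := congrArg Ψ hxy
  have h4 : ∀ x, Ψ (Phi α x) = x := fun x => congrFun (congrArg DFunLike.coe h) x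
  rwa [h4, h4] at h3

theorem middle {X : Type} {P Q L : List X} (h1 : P <+: L) (h2 : Q <:+ L)
    (h : P.length + Q.length ≤ L.length) : ∃ γ, P ++ γ ++ Q = L := by
  obtain ⟨R, rfl⟩ := h1
  rw [List.length_append] at h
  have h3 : Q <:+ R := List.suffix_of_suffix_length_le h2 (List.suffix_append _ _) (by omega)
  obtain ⟨γ, rfl⟩ := h3
  exact ⟨γ, by rw [List.append_assoc]⟩

theorem le_sum_map {G : List Gen} (f : Gen → ℕ) {g : Gen} (hg : g ∈ G) : f g ≤ (G.map f).sum :=
  List.single_le_sum (fun _ _ => Nat.zero_le _) _ (List.mem_map_of_mem hg)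

theorem last_of {c : Bool} {h : List Bool} (h1 : h ≠ []) (h2 : h.getLast? ≠ some c) :
    ∃ h', h = h' ++ [!c] := by
  refine ⟨h.dropLast, ?_⟩
  have h7 := List.dropLast_append_getLast h1
  have h8 : h.getLast h1 ≠ c := fun h9 => h2 (by rw [List.getLast?_eq_some_getLast h1, h9])
  rw [bool_of_ne h8] at h7
  exact h7.symm

theorem pos_replicate (n : ℕ) (c : Bool) : pos (List.replicate n c) = FreeGroup.of c ^ n := by
  unfold pos
  rw [List.map_replicate, List.prod_replicate]

theorem suf1 {G : List Gen} (hG : ∀ g ∈ G, g.Red) (h : Crit1 G) : Embeds (Mon G) := by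
  obtain ⟨c, hc⟩ := h
  obtain ⟨K, hK⟩ : ∃ K, ∀ g ∈ G, g.p.length + g.q.length ≤ K :=
    ⟨(G.map fun g => g.p.length + g.q.length).sum, fun g hg =>
      le_sum_map (fun g => g.p.length + g.q.length) hg⟩
  set α : Bool → List Bool := fun e => if e = c then [c] else
    List.replicate K c ++ ([!c] ++ List.replicate K c) with hα
  have a1 : α c = [c] := by rw [hα]; simp
  have a2 : α (!c) = List.replicate K c ++ ([!c] ++ List.replicate K c) := by rw [hα]; simp
  have hrep : ∀ n, W α (List.replicate n c) = List.replicate n c := by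
    intro n
    induction n with
    | zero => rfl
    | succ n ih => rw [List.replicate_succ, W_cons, ih, a1]; rfl
  refine embeds_of (α := α) ?_ fun g hg => ?_
  · refine inj_of_left (FreeGroup.lift fun e => if e = c then FreeGroup.of c else
      (FreeGroup.of c ^ K)⁻¹ * FreeGroup.of (!c) * (FreeGroup.of c ^ K)⁻¹) c ?_ ?_
    · rw [a1, pos_cons, pos_nil, mul_one, FreeGroup.lift_apply_of, if_pos rfl]
    · rw [a2, pos_append, pos_append, pos_replicate, pos_cons, pos_nil, mul_one, map_mul, map_mul,
        map_pow, FreeGroup.lift_apply_of, FreeGroup.lift_apply_of, if_pos rfl,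
        if_neg (by cases c <;> decide)]
      group
  · obtain ⟨hp, hq⟩ := hc g hg
    obtain ⟨r1, r2, r3⟩ := hG g hg
    have hl := hK g hg
    unfold HasG
    rw [eq_replicate_of hp, eq_replicate_of hq, hrep, hrep]
    by_cases hp0 : g.p = []
    · by_cases hq0 : g.q = []
      · exact ⟨W α g.h, by rw [hp0, hq0]; simp⟩
      · obtain ⟨h', hh⟩ := last_of r1 (r3 c (by
          rw [List.getLast?_eq_some_getLast hq0, hq _ (List.getLast_mem hq0)]))
        apply middle
        · rw [hp0]
          exact List.nil_prefix
        · rw [hh, W_append, W_single, a2]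
          refine List.IsSuffix.trans ?_ (List.suffix_append _ _)
          refine List.IsSuffix.trans ?_ (List.suffix_append _ _)
          refine List.IsSuffix.trans ?_ (List.suffix_append _ _)
          exact ⟨List.replicate (K - g.q.length) c, by
            rw [List.replicate_append_replicate]
            congr 1
            omega⟩
        · have h5 := mem_lengthW (α := α) (c := !c) (w := g.h) (by rw [hh]; simp)
          rw [a2] at h5
          simp only [List.length_append, List.length_replicate] at h5 ⊢
          omega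
    · obtain ⟨h', hh⟩ := head_of r1 (r2 c (by
        cases hp1 : g.p with
        | nil => exact absurd hp1 hp0
        | cons e p' => rw [hp e (by rw [hp1]; exact List.mem_cons_self)]; rfl))
      apply middle
      · rw [hh, W_cons, a2]
        refine List.IsPrefix.trans ?_ (List.prefix_append _ _)
        refine List.IsPrefix.trans ?_ (List.prefix_append _ _)
        exact ⟨List.replicate (K - g.p.length) c, by
          rw [List.replicate_append_replicate]
          congr 1
          omega⟩
      · by_cases hq0 : g.q = []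
        · rw [hq0]
          exact List.nil_suffix
        · obtain ⟨h2, hh2⟩ := last_of r1 (r3 c (by
            rw [List.getLast?_eq_some_getLast hq0, hq _ (List.getLast_mem hq0)]))
          rw [hh2, W_append, W_single, a2]
          refine List.IsSuffix.trans ?_ (List.suffix_append _ _)
          refine List.IsSuffix.trans ?_ (List.suffix_append _ _)
          refine List.IsSuffix.trans ?_ (List.suffix_append _ _)
          exact ⟨List.replicate (K - g.q.length) c, by
            rw [List.replicate_append_replicate]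
            congr 1
            omega⟩
      · have h5 := mem_lengthW (α := α) (c := !c) (w := g.h) (by rw [hh]; simp)
        rw [a2] at h5
        simp only [List.length_append, List.length_replicate] at h5 ⊢
        omega

/-- the word `(x y x) ^ n` with `x = true`, `y = false` -/
def pw : ℕ → List Bool
  | 0 => []
  | n + 1 => [true, false, true] ++ pw n

theorem pw_add (m n : ℕ) : pw (m + n) = pw m ++ pw n := by
  induction m with
  | zero => rw [Nat.zero_add]; rfl
  | succ m ih =>
    rw [show m + 1 + n = (m + n) + 1 by omega]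
    show [true, false, true] ++ pw (m + n) = ([true, false, true] ++ pw m) ++ pw n
    rw [ih, List.append_assoc]

theorem pw_one : pw 1 = [true, false, true] := rfl

theorem pos_pw (n : ℕ) : pos (pw n) = pos [true, false, true] ^ n := by
  induction n with
  | zero => rfl
  | succ n ih =>
    show pos ([true, false, true] ++ pw n) = _
    rw [pos_append, ih, pow_succ']

/-- the substitution `c ↦ x y x`, `!c ↦ (x y x) ^ K x y` -/
def al (c : Bool) (K : ℕ) : Bool → List Bool := fun e =>
  if e = c then [true, false, true] else pw K ++ [true, false]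

theorem al_c (c : Bool) (K : ℕ) : al c K c = [true, false, true] := by
  unfold al
  simp

theorem al_nc (c : Bool) (K : ℕ) : al c K (!c) = pw K ++ [true, false] := by
  unfold al
  simp

theorem W_al (c : Bool) (K n : ℕ) : W (al c K) (List.replicate n c) = pw n := by
  induction n with
  | zero => rfl
  | succ n ih => rw [List.replicate_succ, W_cons, ih, al_c]; rfl

theorem W_al_head (c : Bool) (K : ℕ) (e : Bool) (w : List Bool) :
    [true] <+: W (al c K) (e :: w) := by
  rw [W_cons]
  refine List.IsPrefix.trans ?_ (List.prefix_append _ _)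
  by_cases he : e = c
  · rw [he, al_c]
    exact ⟨[false, true], rfl⟩
  · rw [bool_of_ne he, al_nc]
    cases K with
    | zero => exact ⟨[false], rfl⟩
    | succ K =>
      refine List.IsPrefix.trans ?_ (List.prefix_append _ _)
      exact ⟨[false, true] ++ pw K, rfl⟩

theorem decomp (c : Bool) (w : List Bool) : ∃ m r, w = List.replicate m c ++ r ∧
    (r = [] ∨ ∃ r', r = (!c) :: r') := by
  induction w with
  | nil => exact ⟨0, [], rfl, Or.inl rfl⟩
  | cons e w ih =>
    by_cases he : e = c
    · obtain ⟨m, r, h1, h2⟩ := ih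
      refine ⟨m + 1, r, ?_, h2⟩
      rw [List.replicate_succ, List.cons_append, ← h1, he]
    · exact ⟨0, e :: w, rfl, Or.inr ⟨w, by rw [bool_of_ne he]⟩⟩

theorem hasG_al {G : List Gen} (hG : ∀ g ∈ G, g.Red) {c : Bool} {K : ℕ}
    (h1 : ∀ g ∈ G, g.q = [] ∧ ((∀ d ∈ g.p, d = c) ∨ g.p = [!c]))
    (h2 : ∀ g ∈ G, g.p ≠ [] → (∀ d ∈ g.p, d = c) → g.p.length ≤ K + 1 ∧
      (g.p.length = K + 1 → g.h ≠ [!c]))
    (h3 : ∀ g ∈ G, g.p = [!c] → ∀ m, g.h = List.replicate m c → K + 1 ≤ m) :
    ∀ g ∈ G, HasG (al c K) g := by
  intro g hg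
  obtain ⟨hq, hp⟩ := h1 g hg
  obtain ⟨r1, r2, -⟩ := hG g hg
  have key : W (al c K) g.p <+: W (al c K) g.h := by
    rcases hp with hp | hp
    · by_cases hp0 : g.p = []
      · rw [hp0, W_nil]
        exact List.nil_prefix
      · obtain ⟨h', hh⟩ := head_of r1 (r2 c (by
          cases hp1 : g.p with
          | nil => exact absurd hp1 hp0
          | cons e p' => rw [hp e (by rw [hp1]; exact List.mem_cons_self)]; rfl))
        obtain ⟨h4, h5⟩ := h2 g hg hp0 hp
        rw [eq_replicate_of hp, W_al, hh, W_cons, al_nc]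
        rcases Nat.lt_or_ge K g.p.length with h6 | h6
        · have h7 : g.p.length = K + 1 := by omega
          rw [h7, pw_add, pw_one, List.append_assoc]
          refine (List.prefix_append_right_inj _).mpr ?_
          cases h' with
          | nil => exact absurd hh (h5 h7)
          | cons e h'' =>
            obtain ⟨t, ht⟩ := W_al_head c K e h''
            rw [← ht]
            exact ⟨t, rfl⟩
        · refine List.IsPrefix.trans ?_ (List.prefix_append _ _)
          refine List.IsPrefix.trans ?_ (List.prefix_append _ _)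
          exact ⟨pw (K - g.p.length), by rw [← pw_add]; congr 1; omega⟩
    · obtain ⟨h', hh⟩ := head_of r1 (r2 (!c) (by rw [hp]; rfl))
      rw [Bool.not_not] at hh
      rw [hp, W_single, al_nc]
      obtain ⟨m, r, e1, e2⟩ := decomp c g.h
      have hm : 1 ≤ m := by
        rcases Nat.eq_zero_or_pos m with h0 | h0
        · rw [h0, hh] at e1
          rcases e2 with e2 | ⟨r', e2⟩
          · rw [e2] at e1
            simp at e1
          · rw [e2] at e1
            simp at e1
        · exact h0
      rw [e1, W_append, W_al]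
      rcases e2 with e2 | ⟨r', e2⟩
      · rw [e2, List.append_nil] at e1
        have h4 := h3 g hg hp m e1
        rw [e2, W_nil, List.append_nil]
        obtain ⟨k, rfl⟩ : ∃ k, m = K + (1 + k) := ⟨m - K - 1, by omega⟩
        rw [pw_add, pw_add, pw_one]
        refine (List.prefix_append_right_inj _).mpr ?_
        exact ⟨[true] ++ pw k, rfl⟩
      · rw [e2, W_cons, al_nc, ← List.append_assoc, ← List.append_assoc, ← pw_add]
        obtain ⟨k, rfl⟩ : ∃ k, m = 1 + k := ⟨m - 1, by omega⟩
        rw [show 1 + k + K = K + (1 + k) by omega, pw_add K, pw_add 1 k, pw_one]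
        simp only [List.append_assoc]
        refine (List.prefix_append_right_inj _).mpr ?_
        exact ⟨_, rfl⟩
  obtain ⟨γ, hγ⟩ := key
  exact ⟨γ, by rw [hq, W_nil, List.append_nil, hγ]⟩

theorem exists_K {G : List Gen} (hG : ∀ g ∈ G, g.Red) (h : Crit2 G) :
    ∃ (c : Bool) (K : ℕ), ∀ g ∈ G, HasG (al c K) g := by
  classical
  obtain ⟨c, h1, h2⟩ := h
  by_cases hex : ∃ m, ∃ g ∈ G, g.p = [!c] ∧ g.h = List.replicate m c
  · obtain ⟨m, ⟨g', hg', hp', hh'⟩, hmin⟩ : ∃ m, (∃ g ∈ G, g.p = [!c] ∧ g.h = List.replicate m c) ∧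
        ∀ n, (∃ g ∈ G, g.p = [!c] ∧ g.h = List.replicate n c) → m ≤ n :=
      ⟨Nat.find hex, Nat.find_spec hex, fun n hn => Nat.find_min' hex hn⟩
    have hm : 1 ≤ m := by
      rcases Nat.eq_zero_or_pos m with h0 | h0
      · rw [h0] at hh'
        exact absurd hh' (hG g' hg').1
      · exact h0
    refine ⟨c, m - 1, hasG_al hG h1 (fun g hg hne hp => ?_) fun g hg hp n hn => ?_⟩
    · obtain ⟨h3, h4⟩ := h2 g hg g' hg' m hne hp hp' hh'
      refine ⟨by omega, fun h5 h6 => ?_⟩
      have := h4 h6
      omega
    · have := hmin n ⟨g, hg, hp, hn⟩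
      omega
  · refine ⟨c, (G.map fun g => g.p.length).sum, hasG_al hG h1 (fun g hg _ _ => ?_)
      fun g hg hp n hn => ?_⟩
    · have := le_sum_map (fun g => g.p.length) hg
      exact ⟨by omega, fun h5 => by omega⟩
    · exact absurd ⟨n, g, hg, hp, hn⟩ hex

theorem inj_al (c : Bool) (K : ℕ) : Function.Injective (Phi (al c K)) := by
  have hx : ∀ Ψ : FreeGroup Bool →* FreeGroup Bool, Ψ (pos [true, false, true]) =
      Ψ (FreeGroup.of true) * (Ψ (FreeGroup.of false) * Ψ (FreeGroup.of true)) := by
    intro Ψ
    rw [pos_cons, pos_cons, pos_cons, pos_nil, mul_one, map_mul, map_mul]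
  refine inj_of_left (FreeGroup.lift fun e => if e = true then
      (FreeGroup.of (!c))⁻¹ * FreeGroup.of c ^ (K + 1) else
      ((FreeGroup.of (!c))⁻¹ * FreeGroup.of c ^ (K + 1))⁻¹ * FreeGroup.of c *
        ((FreeGroup.of (!c))⁻¹ * FreeGroup.of c ^ (K + 1))⁻¹) c ?_ ?_
  · rw [al_c, hx, FreeGroup.lift_apply_of, FreeGroup.lift_apply_of, if_pos rfl,
      if_neg (by decide)]
    group
  · rw [al_nc, pos_append, pos_pw, map_mul, map_pow, hx, pos_cons, pos_cons, pos_nil, mul_one,
      map_mul, FreeGroup.lift_apply_of, FreeGroup.lift_apply_of, if_pos rfl, if_neg (by decide)]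
    generalize FreeGroup.of (!c) = d
    generalize FreeGroup.of c = x
    have e1 : (d⁻¹ * x ^ (K + 1)) * ((d⁻¹ * x ^ (K + 1))⁻¹ * x * (d⁻¹ * x ^ (K + 1))⁻¹ *
        (d⁻¹ * x ^ (K + 1))) = x := by group
    rw [e1]
    group

theorem inj_al' (c : Bool) (K : ℕ) : Function.Injective (Phi fun e => (al c K e).reverse) := by
  have hx : ∀ Ψ : FreeGroup Bool →* FreeGroup Bool, Ψ (pos [true, false, true]) =
      Ψ (FreeGroup.of true) * (Ψ (FreeGroup.of false) * Ψ (FreeGroup.of true)) := by
    intro Ψ
    rw [pos_cons, pos_cons, pos_cons, pos_nil, mul_one, map_mul, map_mul]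
  have hpw : ∀ n, (pw n).reverse = pw n := by
    intro n
    induction n with
    | zero => rfl
    | succ n ih =>
      have h1 : pw (n + 1) = pw n ++ [true, false, true] := by rw [pw_add, pw_one]
      rw [h1, List.reverse_append, ih]
      show [true, false, true] ++ pw n = _
      rw [← pw_one, ← pw_add, ← pw_add, add_comm]
  refine inj_of_left (FreeGroup.lift fun e => if e = true then
      FreeGroup.of c ^ (K + 1) * (FreeGroup.of (!c))⁻¹ else
      (FreeGroup.of c ^ (K + 1) * (FreeGroup.of (!c))⁻¹)⁻¹ * FreeGroup.of c *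
        (FreeGroup.of c ^ (K + 1) * (FreeGroup.of (!c))⁻¹)⁻¹) c ?_ ?_
  · rw [al_c]
    show _ = _
    rw [show ([true, false, true] : List Bool).reverse = [true, false, true] from rfl, hx,
      FreeGroup.lift_apply_of, FreeGroup.lift_apply_of, if_pos rfl, if_neg (by decide)]
    group
  · rw [al_nc, List.reverse_append, hpw,
      show ([true, false] : List Bool).reverse = [false, true] from rfl, pos_append, pos_pw,
      map_mul, map_pow, hx, pos_cons, pos_cons, pos_nil, mul_one,
      map_mul, FreeGroup.lift_apply_of, FreeGroup.lift_apply_of, if_pos rfl, if_neg (by decide)]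
    generalize FreeGroup.of (!c) = d
    generalize FreeGroup.of c = x
    have e1 : (x ^ (K + 1) * d⁻¹) * ((x ^ (K + 1) * d⁻¹)⁻¹ * x * (x ^ (K + 1) * d⁻¹)⁻¹ *
        (x ^ (K + 1) * d⁻¹)) = x := by group
    rw [e1]
    group

theorem suf2 {G : List Gen} (hG : ∀ g ∈ G, g.Red) (h : Crit2 G) : Embeds (Mon G) := by
  obtain ⟨c, K, hγ⟩ := exists_K hG h
  exact embeds_of (inj_al c K) hγ

theorem suf3 {G : List Gen} (hG : ∀ g ∈ G, g.Red) (h : Crit2 (G.map Gen.mirror)) :
    Embeds (Mon G) := by
  obtain ⟨c, K, hγ⟩ := exists_K (G := G.map Gen.mirror) (fun g hg => by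
    obtain ⟨g0, hg0, rfl⟩ := List.mem_map.mp hg
    exact (hG g0 hg0).mirror) h
  refine embeds_of (inj_al' c K) fun g hg => ?_
  have h1 := (hγ g.mirror (List.mem_map_of_mem hg)).mirror
  rwa [Gen.mirror_mirror] at h1

end Pool.Agent.EmbFree
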